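import Mathlib
import Pool.Agent.X198.TauBlk

set_option autoImplicit false

namespace Pool.Agent.Results.MP_2b4c46_gt.NotMackey

open Pool.Agent.X198.TauTop Pool.Agent.X198.TauDyadic Pool.Agent.X198.TauBlk

/-- **For `b n = 2 ^ n` the supremum topology `s_b` is compatible, but it is not the Mackey
topology**: some locally quasi-convex group topology on `ℤ` with the character group `H_b` is not
coarser than `s_b`. (In Mathlib's order on topologies `sTop b ≤ σ` says that `σ` is coarser than
`sTop b`.) -/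
theorem _root_.Pool.Agent.Results.MP_2b4c46_gt.NotMackey.result :
    ∃ b : ℕ → ℕ, IsD b ∧ (∀ n, b n = 2 ^ n) ∧ dual (sTop b) = HH b ∧
      ∃ σ : TopologicalSpace ℤ, @IsTopologicalAddGroup ℤ σ _ ∧ LQC σ ∧ dual σ = HH b ∧
        ¬ sTop b ≤ σ :=
  ⟨b2, isD_b2, fun _ => rfl, dual_sTop, unif E0, group_unif E0, lqc_unif E0, dual_E0, not_le⟩

end Pool.Agent.Results.MP_2b4c46_gt.NotMackey
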